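import Mathlib
import Pool.Agent.U446.DD.LMIcore

/-! Project DD (helper401), package BAS (helper875): existence of an eigenbasis with increasing
eigenvalues; the general lemma. -/

set_option autoImplicit false

open Set Filter Topology
open scoped InnerProductSpace

namespace Pool.Agent.U875.DD

section

variable {H K : Type} [NormedAddCommGroup H] [InnerProductSpace ℝ H]
    [NormedAddCommGroup K] [InnerProductSpace ℝ K]

/-- the pairs in `W` whose first component is orthogonal to the vectors of the list -/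
def Wl (W : Submodule ℝ (H × K)) (L : List H) : Submodule ℝ (H × K) where
  carrier := {p | p ∈ W ∧ ∀ v ∈ L, ⟪v, p.1⟫_ℝ = 0}
  zero_mem' := ⟨W.zero_mem, fun v _ => by simp⟩
  add_mem' := by
    rintro p q ⟨hp, hp'⟩ ⟨hq, hq'⟩
    refine ⟨W.add_mem hp hq, fun v hv => ?_⟩
    rw [Prod.fst_add, inner_add_right, hp' v hv, hq' v hv, add_zero]
  smul_mem' := by
    rintro c p ⟨hp, hp'⟩
    refine ⟨W.smul_mem c hp, fun v hv => ?_⟩
    rw [Prod.smul_fst, inner_smul_right, hp' v hv, mul_zero]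

lemma mem_Wl {W : Submodule ℝ (H × K)} {L : List H} {p : H × K} :
    p ∈ Wl W L ↔ p ∈ W ∧ ∀ v ∈ L, ⟪v, p.1⟫_ℝ = 0 := Iff.rfl

lemma Wl_le (W : Submodule ℝ (H × K)) (L : List H) : Wl W L ≤ W := fun _ hp => hp.1

lemma Wl_closed {W : Submodule ℝ (H × K)} (hW : IsClosed (W : Set (H × K))) (L : List H) :
    IsClosed (Wl W L : Set (H × K)) := by
  have h : (Wl W L : Set (H × K)) = (W : Set (H × K)) ∩ ⋂ v ∈ {v | v ∈ L}, {p : H × K | ⟪v, p.1⟫_ℝ = 0} := by
    ext p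
    simp only [SetLike.mem_coe, mem_inter_iff, mem_iInter, Set.mem_ofPred_eq]
    exact mem_Wl
  rw [h]
  refine hW.inter (isClosed_biInter fun v _ => ?_)
  exact isClosed_eq (continuous_const.inner continuous_fst) continuous_const

/-- a minimizer -/
def IsPick (W : Submodule ℝ (H × K)) (L : List H) (x : (H × K) × ℝ) : Prop :=
  x.1 ∈ Wl W L ∧ ‖x.1.1‖ = 1 ∧ (∀ q ∈ Wl W L, ⟪x.1.2, q.2⟫_ℝ = x.2 * ⟪x.1.1, q.1⟫_ℝ) ∧
    ∀ q ∈ Wl W L, x.2 * ‖q.1‖ ^ 2 ≤ ‖q.2‖ ^ 2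

/-- the list of the first `n` vectors -/
def lst (pick : List H → (H × K) × ℝ) : ℕ → List H
  | 0 => []
  | n + 1 => (pick (lst pick n)).1.1 :: lst pick n

lemma mem_lst (pick : List H → (H × K) × ℝ) (n : ℕ) (v : H) :
    v ∈ lst pick n ↔ ∃ i < n, v = (pick (lst pick i)).1.1 := by
  induction n with
  | zero => simp [lst]
  | succ n ih =>
    rw [lst, List.mem_cons, ih]
    constructor
    · rintro (h | ⟨i, hi, h⟩)
      · exact ⟨n, by omega, h⟩
      · exact ⟨i, by omega, h⟩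
    · rintro ⟨i, hi, h⟩
      rcases Nat.lt_succ_iff_lt_or_eq.1 hi with h1 | h1
      · exact Or.inr ⟨i, h1, h⟩
      · exact Or.inl (h1 ▸ h)

theorem core (W : Submodule ℝ (H × K)) (hW : IsClosed (W : Set (H × K)))
    (tb : ∀ R : ℝ, TotallyBounded {v : H | ∃ z : K, (v, z) ∈ W ∧ ‖z‖ ≤ R})
    (hmin : ∀ W' : Submodule ℝ (H × K), W' ≤ W → IsClosed (W' : Set (H × K)) →
      (∃ p ∈ W', p.1 ≠ 0) →
      ∃ p ∈ W', ∃ l : ℝ, ‖p.1‖ = 1 ∧ (∀ q ∈ W', ⟪p.2, q.2⟫_ℝ = l * ⟪p.1, q.1⟫_ℝ) ∧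
        ∀ q ∈ W', l * ‖q.1‖ ^ 2 ≤ ‖q.2‖ ^ 2)
    (hinf : ∀ (n : ℕ) (w : Fin n → H), ∃ p ∈ W, p.1 ≠ 0 ∧ ∀ i, ⟪w i, p.1⟫_ℝ = 0) :
    ∃ (w : ℕ → H) (g : ℕ → K) (lam : ℕ → ℝ), (∀ n, (w n, g n) ∈ W) ∧ Orthonormal ℝ w ∧
      (∀ n, ∀ p ∈ W, ⟪g n, p.2⟫_ℝ = lam n * ⟪w n, p.1⟫_ℝ) ∧
      (∀ p ∈ W, p.1 ∈ closure (Submodule.span ℝ (range w) : Set H)) ∧ Monotone lam := by
  classical
  have hex : ∀ L : List H, ∃ x : (H × K) × ℝ, IsPick W L x := by
    intro L
    obtain ⟨p, hp, hp0, hpi⟩ := hinf L.length (fun i => L.get i)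
    have hpL : p ∈ Wl W L := by
      refine mem_Wl.2 ⟨hp, fun v hv => ?_⟩
      obtain ⟨i, rfl⟩ := List.mem_iff_get.1 hv
      exact hpi i
    obtain ⟨q, hq, l, h1, h2, h3⟩ := hmin (Wl W L) (Wl_le W L) (Wl_closed hW L) ⟨p, hpL, hp0⟩
    exact ⟨(q, l), hq, h1, h2, h3⟩
  choose pick hpick using hex
  set w : ℕ → H := fun n => (pick (lst pick n)).1.1 with hw
  set g : ℕ → K := fun n => (pick (lst pick n)).1.2 with hg
  set lam : ℕ → ℝ := fun n => (pick (lst pick n)).2 with hlam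
  have hml : ∀ n v, v ∈ lst pick n ↔ ∃ i < n, v = w i := fun n v => mem_lst pick n v
  have hmemL : ∀ n, (w n, g n) ∈ Wl W (lst pick n) := fun n => (hpick (lst pick n)).1
  have hmem : ∀ n, (w n, g n) ∈ W := fun n => (hmemL n).1
  have hnorm : ∀ n, ‖w n‖ = 1 := fun n => (hpick (lst pick n)).2.1
  have hlt : ∀ i j, i < j → ⟪w i, w j⟫_ℝ = 0 := by
    intro i j hij
    exact (hmemL j).2 (w i) ((hml j _).2 ⟨i, hij, rfl⟩)
  have horth0 : ∀ i j, i ≠ j → ⟪w i, w j⟫_ℝ = 0 := by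
    intro i j hij
    rcases lt_or_gt_of_ne hij with h | h
    · exact hlt i j h
    · rw [real_inner_comm]
      exact hlt j i h
  have horth : Orthonormal ℝ w := ⟨hnorm, fun i j hij => horth0 i j hij⟩
  have hinner : ∀ i j, ⟪w i, w j⟫_ℝ = if i = j then 1 else 0 := by
    intro i j
    split_ifs with h
    · subst h
      rw [real_inner_self_eq_norm_sq, hnorm]
      norm_num
    · exact horth0 i j h
  -- the projection
  let q : ℕ → H × K → H × K := fun n p => p - ∑ i ∈ Finset.range n, ⟪w i, p.1⟫_ℝ • (w i, g i)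
  have hq1 : ∀ n p, (q n p).1 = p.1 - ∑ i ∈ Finset.range n, ⟪w i, p.1⟫_ℝ • w i := by
    intro n p
    simp only [q, Prod.fst_sub, Prod.fst_sum, Prod.smul_fst]
  have hq2 : ∀ n p, (q n p).2 = p.2 - ∑ i ∈ Finset.range n, ⟪w i, p.1⟫_ℝ • g i := by
    intro n p
    simp only [q, Prod.snd_sub, Prod.snd_sum, Prod.smul_snd]
  have hqW : ∀ n, ∀ p ∈ W, q n p ∈ W := by
    intro n p hp
    exact W.sub_mem hp (W.sum_mem fun i _ => W.smul_mem _ (hmem i))
  have hqi : ∀ n j p, ⟪w j, (q n p).1⟫_ℝ = if j < n then 0 else ⟪w j, p.1⟫_ℝ := by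
    intro n j p
    rw [hq1, inner_sub_right, inner_sum]
    simp only [inner_smul_right, hinner, mul_ite, mul_one, mul_zero, Finset.sum_ite_eq,
      Finset.mem_range]
    split_ifs with h
    · exact sub_self _
    · exact sub_zero _
  have hqL : ∀ n, ∀ p ∈ W, q n p ∈ Wl W (lst pick n) := by
    intro n p hp
    refine mem_Wl.2 ⟨hqW n p hp, fun v hv => ?_⟩
    obtain ⟨i, hi, rfl⟩ := (hml n v).1 hv
    rw [hqi, if_pos hi]
  have heig : ∀ n, ∀ p ∈ W, ⟪g n, p.2⟫_ℝ = lam n * ⟪w n, p.1⟫_ℝ := by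
    intro n
    induction n using Nat.strong_induction_on with
    | _ n ih =>
      intro p hp
      have h1 : ⟪g n, (q n p).2⟫_ℝ = lam n * ⟪w n, (q n p).1⟫_ℝ :=
        (hpick (lst pick n)).2.2.1 _ (hqL n p hp)
      rw [hqi, if_neg (lt_irrefl n), hq2, inner_sub_right, inner_sum] at h1
      have h2 : ∑ i ∈ Finset.range n, ⟪g n, ⟪w i, p.1⟫_ℝ • g i⟫_ℝ = 0 := by
        refine Finset.sum_eq_zero fun i hi => ?_
        have hin : i < n := Finset.mem_range.1 hi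
        have h3 := ih i hin (w n, g n) (hmem n)
        simp only at h3
        rw [hlt i n hin, mul_zero] at h3
        rw [inner_smul_right, real_inner_comm (g i) (g n), h3, mul_zero]
      rw [h2, sub_zero] at h1
      exact h1
  have hgn : ∀ n, ‖g n‖ ^ 2 = lam n := by
    intro n
    have h := heig n _ (hmem n)
    simp only at h
    rw [real_inner_self_eq_norm_sq, real_inner_self_eq_norm_sq, hnorm n] at h
    simpa using h
  have hle : ∀ n, ∀ p ∈ Wl W (lst pick n), lam n * ‖p.1‖ ^ 2 ≤ ‖p.2‖ ^ 2 :=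
    fun n => (hpick (lst pick n)).2.2.2
  have hmono : Monotone lam := by
    refine monotone_nat_of_le_succ fun n => ?_
    have h1 : (w (n + 1), g (n + 1)) ∈ Wl W (lst pick n) := by
      refine mem_Wl.2 ⟨hmem (n + 1), fun v hv => ?_⟩
      obtain ⟨i, hi, rfl⟩ := (hml n v).1 hv
      exact hlt i (n + 1) (by omega)
    have h2 := hle n _ h1
    simp only at h2
    rw [hnorm, hgn] at h2
    simpa using h2
  have htend : Tendsto lam atTop atTop :=
    Pool.Agent.U446.DD.core W w g lam hmem horth heig tb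
  refine ⟨w, g, lam, hmem, horth, heig, ?_, hmono⟩
  intro p hp
  have hsq : ∀ n, ‖(q n p).2‖ ^ 2 ≤ ‖p.2‖ ^ 2 := by
    intro n
    set s : K := ∑ i ∈ Finset.range n, ⟪w i, p.1⟫_ℝ • g i with hs
    have h1 : p.2 = (q n p).2 + s := by
      rw [hq2]
      abel
    have h2 : ⟪(q n p).2, s⟫_ℝ = 0 := by
      rw [hs, inner_sum]
      refine Finset.sum_eq_zero fun i hi => ?_
      have h3 := heig i (q n p) (hqW n p hp)
      rw [hqi, if_pos (Finset.mem_range.1 hi), mul_zero] at h3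
      rw [inner_smul_right, real_inner_comm (g i) ((q n p).2), h3, mul_zero]
    have h4 : ‖p.2‖ ^ 2 = ‖(q n p).2‖ ^ 2 + ‖s‖ ^ 2 := by
      conv_lhs => rw [h1]
      rw [norm_add_sq_real, h2]
      ring
    rw [h4]
    exact le_add_of_nonneg_right (sq_nonneg _)
  rw [Metric.mem_closure_iff]
  intro ε hε
  obtain ⟨n, hn⟩ := (htend.eventually_ge_atTop ((‖p.2‖ ^ 2 + 1) / ε ^ 2)).exists
  have h1 := hle n _ (hqL n p hp)
  have h2 := hsq n
  have h3 : (‖p.2‖ ^ 2 + 1) ≤ lam n * ε ^ 2 := by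
    rw [div_le_iff₀ (by positivity)] at hn
    exact hn
  have h4 : ‖(q n p).1‖ < ε := by
    by_contra hcon
    have h5 : ε ≤ ‖(q n p).1‖ := not_lt.1 hcon
    have h6 : ε ^ 2 ≤ ‖(q n p).1‖ ^ 2 := pow_le_pow_left₀ hε.le h5 2
    have h7 : 0 ≤ lam n := by
      rw [← hgn]
      positivity
    have h8 := mul_le_mul_of_nonneg_left h6 h7
    linarith
  refine ⟨∑ i ∈ Finset.range n, ⟪w i, p.1⟫_ℝ • w i, ?_, ?_⟩
  · refine Submodule.sum_mem _ fun i _ => Submodule.smul_mem _ _ (Submodule.subset_span ⟨i, rfl⟩)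
  · rw [dist_eq_norm, ← hq1]
    exact h4

end

end Pool.Agent.U875.DD
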